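import Pool.Agent.Helper54.R1.Goals

set_option autoImplicit false

/-! # Contact checks C2 and C3 of region R1 (MP_a8383f_co) -/

namespace Pool.Agent.Helper28.R1

open Real Pool.Agent.Helper66.Kiss

lemma rt_div_le (z w : ℝ) (h : 0 ≤ 1 + 2 * (3 / 4 - z ^ 2 - w ^ 2 + z * w)) :
    rt z w / √2 ≤ (1 + 2 * (3 / 4 - z ^ 2 - w ^ 2 + z * w)) / 4 := by
  unfold rt
  rw [← Real.sqrt_div' _ (by norm_num : (0:ℝ) ≤ 2), Real.sqrt_le_left (by linarith)]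
  nlinarith [sq_nonneg (1 - 2 * (3 / 4 - z ^ 2 - w ^ 2 + z * w))]

theorem c2 : Pool.Agent.Helper54.R1.C2_stmt := by
  intro y y1 e hy hy1 h1 he he1
  rw [abs_le] at h1
  obtain ⟨h1a, h1b⟩ := h1
  have hy1p : 0 ≤ y1 := by linarith
  have hy1q : y1 ≤ 1.22 * y := by linarith
  have hy1r : 0.78 * y ≤ y1 := by linarith
  have hX := rt_div_le y1 (-1 / 2 - e) (by nlinarith)
  have hA : (0:ℝ) < 1 - y1 ^ 2 := by nlinarith
  have hB : (0:ℝ) < 1 - (-1 / 2 - e) ^ 2 := by nlinarith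
  have n1 : (-1 / 2 - e - y1 / 2) * 1 / (1 - y1 ^ 2) ≤ -1 / 2 - e - y1 / 2 := by
    rw [div_le_iff₀ hA]; nlinarith [sq_nonneg y1]
  have n2 : (y1 - (-1 / 2 - e) / 2) * (3 / 10 * y) / (1 - (-1 / 2 - e) ^ 2) ≤ 0.14 * y := by
    rw [div_le_iff₀ hB]
    have h6 : (y1 - (-1 / 2 - e) / 2) * (3 / 10) ≤ 0.14 * (1 - (-1 / 2 - e) ^ 2) := by
      have h7 : e ^ 2 ≤ 0.0002 := by nlinarith
      nlinarith
    nlinarith [mul_le_mul_of_nonneg_right h6 hy.le]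
  have n3 : (1 + y / 5) / √2 * rt y1 (-1 / 2 - e) ≤ (1 + y / 5) * (1 / 2 - y1 / 4 - e / 2) := by
    have : (1 + y / 5) / √2 * rt y1 (-1 / 2 - e) = (1 + y / 5) * (rt y1 (-1 / 2 - e) / √2) := by ring
    rw [this]
    apply mul_le_mul_of_nonneg_left _ (by positivity)
    refine le_trans hX ?_
    nlinarith [sq_nonneg (y1 + e), sq_nonneg y1, sq_nonneg e]
  unfold nr
  have n4 : (1 + y / 5) * (1 / 2 - y1 / 4 - e / 2) ≤ 1 / 2 - y1 / 4 - e / 2 + 0.1 * y := by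
    nlinarith
  linarith

theorem c3 : Pool.Agent.Helper54.R1.C3_stmt := by
  intro y y2 ε b hy hy1 h1 he he1 hb hb1
  rw [abs_le] at h1
  obtain ⟨h1a, h1b⟩ := h1
  have hy1q : -(1.22 * y) ≤ y2 := by linarith
  have hy1r : y2 ≤ -(0.78 * y) := by linarith
  have hX := rt_div_le y2 (1 / 2 - ε) (by nlinarith)
  have hA : (0:ℝ) < 1 - y2 ^ 2 := by nlinarith
  have n1 : (1 / 2 - ε - y2 / 2) * (-1) / (1 - y2 ^ 2) ≤ -(1 / 2 - ε - y2 / 2) := by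
    rw [div_le_iff₀ hA]; nlinarith [sq_nonneg y2]
  have n3 : (1 - b * y) / √2 * rt y2 (1 / 2 - ε) ≤ (1 - b * y) * (1 / 2 + y2 / 4 + ε / 2) := by
    have : (1 - b * y) / √2 * rt y2 (1 / 2 - ε) = (1 - b * y) * (rt y2 (1 / 2 - ε) / √2) := by ring
    rw [this]
    apply mul_le_mul_of_nonneg_left _ (by nlinarith)
    refine le_trans hX ?_
    nlinarith [sq_nonneg (y2 + ε), sq_nonneg y2, sq_nonneg ε]
  unfold nr
  rw [mul_zero, zero_div, add_zero]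
  have n4 : (1 - b * y) * (1 / 2 + y2 / 4 + ε / 2) ≤ 1 / 2 + y2 / 4 + ε / 2 := by
    have h5 : 0 ≤ b * y := by positivity
    nlinarith
  linarith

end Pool.Agent.Helper28.R1
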