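import Pool.Agent.Helper28.R1.C2

/-! # Contact check C3: see `Pool.Agent.Helper28.R1.c3` in `C2.lean` -/
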