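import Pool.Agent.Helper54.R1.Goals

set_option autoImplicit false

/-! # Contact check C6 of region R1 (MP_a8383f_co) -/

namespace Pool.Agent.Helper28.R1

open Real Pool.Agent.Helper66.Kiss

theorem c6 : Pool.Agent.Helper54.R1.C6_stmt := by
  intro y e e' hy he he'
  rw [abs_le] at he he'
  unfold nr
  have h1 : (0:ℝ) < 1 - (-1 / 2 - e) ^ 2 := by nlinarith [he.1, he.2]
  have h2 : (0:ℝ) < 1 - (-1 / 2 - e') ^ 2 := by nlinarith [he'.1, he'.2]
  have h3 : ((-1 / 2 - e') - (-1 / 2 - e) / 2) * (3 / 10 * y) / (1 - (-1 / 2 - e) ^ 2) < 0 := by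
    apply div_neg_of_neg_of_pos _ h1
    apply mul_neg_of_neg_of_pos
    · linarith [he.1, he.2, he'.1, he'.2]
    · linarith
  have h4 : ((-1 / 2 - e) - (-1 / 2 - e') / 2) * (3 / 10 * y) / (1 - (-1 / 2 - e') ^ 2) < 0 := by
    apply div_neg_of_neg_of_pos _ h2
    apply mul_neg_of_neg_of_pos
    · linarith [he.1, he.2, he'.1, he'.2]
    · linarith
  linarith

end Pool.Agent.Helper28.R1
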