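import Pool.Agent.Helper54.R1.Goals

set_option autoImplicit false

/-! # Contact check C7 of region R1 (MP_a8383f_co) -/

namespace Pool.Agent.Helper28.R1

open Real Pool.Agent.Helper66.Kiss

theorem c7 : Pool.Agent.Helper54.R1.C7_stmt := by
  intro y ε e a hy hy1 hε hε1 he ha ha1
  rw [abs_le] at he
  have s2 : √2 < 1.4143 := by
    rw [Real.sqrt_lt' (by norm_num)]; norm_num
  have s2' : 1.414 < √2 := by
    apply Real.lt_sqrt_of_sq_lt; norm_num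
  have s2p : 0 < √2 := by positivity
  have hA : 0.424 * y ≤ a := by
    refine le_trans ?_ ha
    rw [le_div_iff₀ s2p]
    nlinarith
  have ha0 : 0 < a := lt_of_lt_of_le (by positivity) hA
  have hs : a - a ^ 3 / 6 < sin a := Real.sin_gt_sub_cube ha0
  have hs2 : 0.397 * y ≤ sin a := by
    have : a * (15/16) ≤ a - a ^ 3 / 6 := by
      have : a ^ 2 ≤ 1 / 4 := by nlinarith
      nlinarith
    linarith
  have h1 : (0:ℝ) < 1 - (-1 / 2 - e) ^ 2 := by nlinarith [he.1, he.2]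
  have h2 : (0.738:ℝ) ≤ 1 - (-1 / 2 - e) ^ 2 := by nlinarith [he.1, he.2]
  have h3 : (0.738:ℝ) ≤ 1 - (1 / 2 - ε) ^ 2 := by nlinarith
  have q1 : (0.859:ℝ) ≤ √(1 - (-1 / 2 - e) ^ 2) := Real.le_sqrt_of_sq_le (by norm_num at h2 ⊢; linarith)
  have q2 : (0.859:ℝ) ≤ √(1 - (1 / 2 - ε) ^ 2) := Real.le_sqrt_of_sq_le (by norm_num at h3 ⊢; linarith)
  have q3 : (0.737:ℝ) ≤ √(1 - (1 / 2 - ε) ^ 2) * √(1 - (-1 / 2 - e) ^ 2) := by nlinarith
  have q4 : (1.39:ℝ) ≤ (2 - 2 / 5 * y) / √2 := by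
    rw [le_div_iff₀ s2p]; nlinarith
  have q5 : (0.292:ℝ) * y ≤ √(1 - (1 / 2 - ε) ^ 2) * √(1 - (-1 / 2 - e) ^ 2) * sin a := by
    have : 0 ≤ sin a := by nlinarith
    nlinarith [mul_le_mul q3 hs2 (by positivity) (by nlinarith)]
  have q6 : (0.4:ℝ) * y ≤ √(1 - (1 / 2 - ε) ^ 2) * √(1 - (-1 / 2 - e) ^ 2) * sin a * ((2 - 2 / 5 * y) / √2) := by
    nlinarith [mul_le_mul q5 q4 (by norm_num) (le_trans (by positivity) q5)]
  have n1 : nr (1 / 2 - ε) (-1 / 2 - e) 0 (3 / 10 * y) ≤ 0.35 * y := by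
    unfold nr
    rw [mul_zero, zero_div, zero_add, div_le_iff₀ h1]
    nlinarith [mul_le_mul_of_nonneg_left h2 hy.le, mul_nonneg hy.le hε]
  nlinarith

end Pool.Agent.Helper28.R1
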