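import Pool.Agent.Helper54.R1.Goals

set_option autoImplicit false

/-! # Contact check C8 of region R1 (MP_a8383f_co) -/

namespace Pool.Agent.Helper28.R1

open Real Pool.Agent.Helper66.Kiss

theorem c8 : Pool.Agent.Helper54.R1.C8_stmt := by
  intro y zs e hy hy1 hz hz1 he hd
  rw [abs_le] at he
  have s2' : 1.414 < √2 := by
    apply Real.lt_sqrt_of_sq_lt; norm_num
  have s2p : 0 < √2 := by positivity
  have h1 : (0:ℝ) < 1 - (-1 / 2 - e) ^ 2 := by nlinarith [he.1, he.2]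
  have h2 : 1 - (-1 / 2 - e) ^ 2 ≤ (0.7618:ℝ) := by nlinarith [he.1, he.2]
  have q1 : √(1 - (-1 / 2 - e) ^ 2) ≤ (0.873:ℝ) := by
    rw [Real.sqrt_le_left (by norm_num)]; norm_num at h2 ⊢; linarith
  have q4 : (1 + y / 5) / √2 ≤ (0.717:ℝ) := by
    rw [div_le_iff₀ s2p]; nlinarith
  have q0 : 0 ≤ √(1 - zs ^ 2) := Real.sqrt_nonneg _
  have q0' : 0 ≤ √(1 - (-1 / 2 - e) ^ 2) := Real.sqrt_nonneg _
  have q3 : √(1 - zs ^ 2) * √(1 - (-1 / 2 - e) ^ 2) ≤ 0.245 * y := by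
    nlinarith [mul_le_mul hd q1 q0' (by positivity)]
  have q5 : √(1 - zs ^ 2) * √(1 - (-1 / 2 - e) ^ 2) * ((1 + y / 5) / √2) ≤ 0.176 * y := by
    have h5 : 0 ≤ (1 + y / 5) / √2 := by positivity
    nlinarith [mul_le_mul q3 q4 h5 (by positivity)]
  have n1 : nr zs (-1 / 2 - e) 0 (3 / 10 * y) ≤ - (0.26 * y) := by
    unfold nr
    rw [mul_zero, zero_div, zero_add, div_le_iff₀ h1]
    nlinarith [mul_le_mul_of_nonneg_left h2 hy.le]
  nlinarith

end Pool.Agent.Helper28.R1
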